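import Mathlib

set_option autoImplicit false
set_option linter.unusedSectionVars false
set_option linter.style.haveILetI false

/-!
# Functionals on modules over a finite product of number fields
-/

open Module

noncomputable section

namespace Pool.Agent.H19PD

section Alg

variable {F : Type} [CommRing F] [Algebra ℚ F] [Module.Finite ℚ F]
  {V : Type} [AddCommGroup V] [Module F V] [Module.Finite F V]

/-- If the homomorphisms in `good` separate the elements of `F`, and `N` is a proper submodule, then there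
is a semilinear functional for one of them, which is not zero and vanishes on `N`. -/
theorem exists_functional (good : Set (F →+* ℂ))
    (hgood : ∀ f : F, f ≠ 0 → ∃ σ ∈ good, σ f ≠ 0) (N : Submodule F V) (hN : N ≠ ⊤) :
    ∃ σ ∈ good, ∃ l : V →+ ℂ, (∀ f x, l (f • x) = σ f * l x) ∧ (∀ x ∈ N, l x = 0) ∧
      ∃ x, l x ≠ 0 := by
  haveI : IsArtinianRing F := IsArtinianRing.of_finite ℚ F
  haveI : IsReduced F := by
    refine ⟨fun x hx => ?_⟩
    by_contra h
    obtain ⟨σ, -, h1⟩ := hgood x h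
    exact h1 (hx.map σ).eq_zero
  haveI : IsSemisimpleRing F := IsArtinianRing.isSemisimpleRing_of_isReduced F
  obtain ⟨N', hN', hle⟩ := (eq_top_or_exists_le_coatom N).resolve_left hN
  have hsimp : IsSimpleModule F (V ⧸ N') := isSimpleModule_iff_isCoatom.2 hN'
  obtain ⟨I, hI, ⟨φ⟩⟩ := isSimpleModule_iff_quot_maximal.1 hsimp
  obtain ⟨J, hJ⟩ := exists_isCompl I
  have hJ0 : J ≠ ⊥ := by
    intro h
    rw [h] at hJ
    exact hI.ne_top (eq_top_of_isCompl_bot hJ)
  obtain ⟨f, hfJ, hf0⟩ := (Submodule.ne_bot_iff J).1 hJ0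
  obtain ⟨σ, hσ, hσf⟩ := hgood f hf0
  have hIσ : ∀ a ∈ I, σ a = 0 := by
    intro a ha
    have h1 : a * f ∈ I ⊓ J := ⟨I.mul_mem_right f ha, J.mul_mem_left a hfJ⟩
    rw [hJ.inf_eq_bot] at h1
    have h2 : a * f = 0 := h1
    have h3 := congrArg σ h2
    rw [map_mul, map_zero] at h3
    exact (mul_eq_zero.1 h3).resolve_right hσf
  let τ : F ⧸ I →+* ℂ := Ideal.Quotient.lift I σ hIσ
  have hinj : Function.Injective τ := by
    haveI := hI
    letI := Ideal.Quotient.field I
    exact τ.injective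
  let l : V →+ ℂ := (τ : (F ⧸ I) →+ ℂ).comp ((φ : (V ⧸ N') →+ (F ⧸ I)).comp
    (N'.mkQ : V →+ (V ⧸ N')))
  have hl : ∀ x, l x = τ (φ (N'.mkQ x)) := fun x => rfl
  refine ⟨σ, hσ, l, fun f x => ?_, fun x hx => ?_, ?_⟩
  · rw [hl, hl, map_smul, map_smul]
    have h1 : f • φ (N'.mkQ x) = Ideal.Quotient.mk I f * φ (N'.mkQ x) := by
      rw [Algebra.smul_def]
      rfl
    rw [h1, map_mul]
    rfl
  · rw [hl]
    have h1 : N'.mkQ x = 0 := (Submodule.Quotient.mk_eq_zero N').2 (hle hx)
    rw [h1, map_zero, map_zero]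
  · obtain ⟨x, hx⟩ := N'.mkQ_surjective (φ.symm 1)
    refine ⟨x, ?_⟩
    rw [hl, hx, LinearEquiv.apply_symm_apply, map_one]
    exact one_ne_zero

end Alg

section Mat

variable {n : ℕ}

/-- The extension of a functional to complex matrices. -/
def extC (g : Matrix (Fin n) (Fin n) ℚ →ₗ[ℚ] ℂ) : Matrix (Fin n) (Fin n) ℂ →ₗ[ℂ] ℂ where
  toFun M := ∑ i, ∑ j, M i j * g (Matrix.single i j 1)
  map_add' M M' := by
    simp only [Matrix.add_apply, add_mul, Finset.sum_add_distrib]
  map_smul' c M := by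
    simp only [Matrix.smul_apply, smul_eq_mul, mul_assoc, ← Finset.mul_sum, RingHom.id_apply]

theorem extC_cast (g : Matrix (Fin n) (Fin n) ℚ →ₗ[ℚ] ℂ) (M : Matrix (Fin n) (Fin n) ℚ) :
    extC g (M.map fun q => (q : ℂ)) = g M := by
  conv_rhs => rw [Matrix.matrix_eq_sum_single M]
  change ∑ i, ∑ j, (M i j : ℂ) * g (Matrix.single i j 1) = _
  rw [map_sum]
  refine Finset.sum_congr rfl fun i _ => ?_
  rw [map_sum]
  refine Finset.sum_congr rfl fun j _ => ?_
  have h1 : Matrix.single i j (M i j) = (M i j) • Matrix.single i j (1 : ℚ) := by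
    rw [Matrix.smul_single, smul_eq_mul, mul_one]
  rw [h1, map_smul]
  exact (Rat.smul_def _ _).symm

variable {F : Type} [CommRing F] [Algebra ℚ F] [Module.Finite ℚ F]
  {V : Submodule ℚ (Matrix (Fin n) (Fin n) ℚ)}

/-- **The multiples of a subspace are everything** if this is so at sufficiently many places. -/
theorem span_of_local (μ : F →+* Module.End ℚ V) (E : Submodule ℚ (Matrix (Fin n) (Fin n) ℚ))
    (good : Set (F →+* ℂ)) (hgood : ∀ f : F, f ≠ 0 → ∃ σ ∈ good, σ f ≠ 0)
    (hloc : ∀ σ ∈ good, ∀ x : V, (x : Matrix (Fin n) (Fin n) ℚ).map (fun q => (q : ℂ)) ∈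
      Submodule.span ℂ {y | ∃ M ∈ E, M ∈ V ∧ y = M.map fun q => (q : ℂ)} ⊔
      Submodule.span ℂ {y | ∃ (f : F) (z : V), y =
        (μ f z : Matrix (Fin n) (Fin n) ℚ).map (fun q => (q : ℂ)) -
          σ f • (z : Matrix (Fin n) (Fin n) ℚ).map (fun q => (q : ℂ))}) (x : V) :
    x ∈ Submodule.span ℚ {z : V | ∃ f : F, ∃ e : V, (e : Matrix (Fin n) (Fin n) ℚ) ∈ E ∧
      z = μ f e} := by
  letI : Module F V := Module.compHom V μ
  have hsm : ∀ (f : F) (x : V), f • x = μ f x := fun _ _ => rfl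
  haveI : IsScalarTower ℚ F V := by
    refine ⟨fun q f x => ?_⟩
    have h1 : μ (q • f) = q • μ f := (map_rat_smul μ.toAddMonoidHom q f)
    rw [hsm, hsm, h1]
    rfl
  haveI : Module.Finite F V := Module.Finite.of_restrictScalars_finite ℚ F V
  let N : Submodule F V := Submodule.span F {e : V | (e : Matrix (Fin n) (Fin n) ℚ) ∈ E}
  have hN : N = ⊤ := by
    by_contra hcon
    obtain ⟨σ, hσ, l, h1, h2, x, hx⟩ := exists_functional good hgood N hcon
    obtain ⟨g, hg⟩ := LinearMap.exists_extend (p := V) l.toRatLinearMap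
    have hg' : ∀ x : V, g x = l x := fun x => LinearMap.congr_fun hg x
    refine hx ?_
    rw [← hg' x, ← extC_cast]
    have h3 := hloc σ hσ x
    have h4 : Submodule.span ℂ {y | ∃ M ∈ E, M ∈ V ∧ y = M.map fun q => (q : ℂ)} ⊔
      Submodule.span ℂ {y | ∃ (f : F) (z : V), y =
        (μ f z : Matrix (Fin n) (Fin n) ℚ).map (fun q => (q : ℂ)) -
          σ f • (z : Matrix (Fin n) (Fin n) ℚ).map (fun q => (q : ℂ))} ≤
        LinearMap.ker (extC g) := by
      refine sup_le (Submodule.span_le.2 ?_) (Submodule.span_le.2 ?_)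
      · rintro _ ⟨M, hM, hV, rfl⟩
        change extC g _ = 0
        rw [extC_cast]
        exact (hg' ⟨M, hV⟩).trans (h2 _ (Submodule.subset_span hM))
      · rintro _ ⟨f, z, rfl⟩
        change extC g _ = 0
        rw [map_sub, map_smul, extC_cast, extC_cast, hg', hg', smul_eq_mul, ← hsm, h1, sub_self]
    exact h4 h3
  have hx : x ∈ N := by rw [hN]; trivial
  induction hx using Submodule.span_induction with
  | mem x hx => exact Submodule.subset_span ⟨1, x, hx, by rw [map_one]; rfl⟩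
  | zero => exact Submodule.zero_mem _
  | add x y _ _ hx hy => exact Submodule.add_mem _ hx hy
  | smul f x _ hx =>
    rw [hsm]
    have key : ∀ y ∈ Submodule.span ℚ {z : V | ∃ f : F, ∃ e : V,
        (e : Matrix (Fin n) (Fin n) ℚ) ∈ E ∧ z = μ f e}, μ f y ∈ Submodule.span ℚ {z : V |
        ∃ f : F, ∃ e : V, (e : Matrix (Fin n) (Fin n) ℚ) ∈ E ∧ z = μ f e} := by
     intro y hy
     clear hx
     induction hy using Submodule.span_induction with
     | mem x hx =>
       obtain ⟨f', e, he, rfl⟩ := hx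
       exact Submodule.subset_span ⟨f * f', e, he, by rw [map_mul]; rfl⟩
     | zero => rw [map_zero]; exact Submodule.zero_mem _
     | add x y _ _ hx hy => rw [map_add]; exact Submodule.add_mem _ hx hy
     | smul c x _ hx => rw [map_smul]; exact Submodule.smul_mem _ _ hx
    exact key x hx

end Mat

end Pool.Agent.H19PD
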