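import Pool.Agent.H19PD.Small

set_option autoImplicit false
set_option linter.unusedSectionVars false
set_option linter.unusedVariables false

/-!
# The main theorem
-/

open Module Function TensorProduct Matrix

noncomputable section

namespace Pool.Agent.H19PD

open Pool.Agent.Y102 Pool.Agent.W516.DR Pool.Agent.H204R3.GP Pool.Agent.W516.KC
  Pool.Agent.H204R3.SP Pool.Agent.TH119.MX Pool.Agent.R917 Pool.Agent.R918 Pool.Agent.N208.AM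
  Pool.Agent.N113.BT Pool.Agent.H19HP

variable {g : ℕ} {A : AbVar g} {s n : ℕ} {r : Fin s → ℕ} {B : Fin n → Ten A r} {w : Fin s → ℤ}
  {P : Matrix (Fin n) (Fin n) ℂ} {Wt : Matrix (Fin n) (Fin n) ℚ}
  {H : Set (Matrix (Fin n) (Fin n) ℂ)}
  {F : Type} [CommRing F] [Algebra ℚ F] [Module.Finite ℚ F]

/-- **The derived algebra of the Lie algebra of the group** is everything. -/
theorem full_all {V : Submodule ℚ (Matrix (Fin n) (Fin n) ℚ)} (hV : V = mats B (der A.NA))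
    (h : Mot w B P) (hW : WRel w B Wt) (hH : PtM P H)
    (μ : F →+* Module.End ℚ V)
    (hμ : ∀ (f : F) (x y z : V), (z : Matrix (Fin n) (Fin n) ℚ) =
      (x : Matrix (Fin n) (Fin n) ℚ) * y - (y : Matrix (Fin n) (Fin n) ℚ) * x →
      (μ f z : Matrix (Fin n) (Fin n) ℚ) = (μ f x : Matrix (Fin n) (Fin n) ℚ) * y -
      (y : Matrix (Fin n) (Fin n) ℚ) * (μ f x : Matrix (Fin n) (Fin n) ℚ))
    (good : Set (F →+* ℂ)) (hgood : ∀ f : F, f ≠ 0 → ∃ σ ∈ good, σ f ≠ 0)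
    (hrig : ∀ σ ∈ good, (∃ (d : ℕ) (S : Submodule ℂ (Matrix (Fin d) (Fin d) ℂ))
      (PW : Matrix (Fin (2 * g)) (Fin d) ℂ) (QW : Matrix (Fin d) (Fin (2 * g)) ℂ),
      RigidLie S ∧ QW * PW = 1 ∧ (∀ X ∈ A.NA, PW * QW * toC X = toC X * (PW * QW)) ∧
      (∀ X ∈ A.NA, ∃ c : ℂ, QW * toC X * PW + c • 1 ∈ S) ∧
      (∀ z ∈ S, ∃ Y ∈ Submodule.span ℂ {Y | ∃ X ∈ A.NA, Y = toC X}, z = QW * Y * PW) ∧
      ∀ p ∈ Submodule.span ℂ {p : Matrix (Fin (2 * g)) (Fin (2 * g)) ℂ ×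
        Matrix (Fin n) (Fin n) ℂ | ∃ X ∈ der A.NA, ∃ M, Rel B X M ∧ p = (toC X, cq M)},
        PW * QW * p.1 = 0 → p.2 ∈ KS μ σ) ∨
      ∃ a b c, ∀ M ∈ V, cq M ∈ Submodule.span ℂ {a, b, c} ⊔ KS μ σ)
    (hdet : ∀ E : Submodule ℚ (Matrix (Fin n) (Fin n) ℚ), E ≤ V →
      E ≠ V → (∀ x ∈ E, ∀ y ∈ E, x * y - y * x ∈ E) →
      (∀ x : V, x ∈ Submodule.span ℚ {z : V | ∃ f : F,
        ∃ e : V, (e : Matrix (Fin n) (Fin n) ℚ) ∈ E ∧ z = μ f e}) →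
      ∃ X ∈ A.NA, X ∉ Algebra.adjoin ℚ ({X : Module.End ℚ A.H1 | X ∈ A.NA ∧
        ∀ Y ∈ A.NA, Y * X = X * Y} ∪ {X | X ∈ der A.NA ∧ ∃ M ∈ E, Rel B X M})) :
    mats B (der A.NA) ≤ mats B (dq B Wt H) := by
  subst hV
  have hq := qM_full h hW hH
  have hdd := dq_le h hW hH
  have hspan := span_of_local μ (mats B (dq B Wt H)) good hgood (by
    intro σ hσ x
    rcases hrig σ hσ with ⟨d, S, PW, QW, hS, h1, h2, h3, h4, h5⟩ | ⟨a, b, c, habc⟩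
    · refine local_of_rig (e := matE (2 * g) (PW * QW)) (S := S.map (io PW QW)) h hW hH ?_
        (alpha_gen h5) x.2
      refine rigPart_corner hS.rig hS.br h1 h2 h3 fun z hz => ?_
      obtain ⟨Y, hY, hz'⟩ := h4 z hz
      exact ⟨Y, Algebra.subset_adjoin hY, hz'⟩
    · exact local_of_small h hW hH hμ habc x.2)
  by_contra hcon
  have hbr : ∀ x ∈ mats B (dq B Wt H), ∀ y ∈ mats B (dq B Wt H),
      x * y - y * x ∈ mats B (dq B Wt H) := by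
    rintro x ⟨X, hX, hM⟩ y ⟨Y, hY, hM'⟩
    exact ⟨Y * X - X * Y, Submodule.subset_span ⟨Y, hq.der_le hY, X, hq.der_le hX, rfl⟩,
      hM'.br hM⟩
  obtain ⟨X, hX, h3⟩ := hdet (mats B (dq B Wt H)) (mats_mono hdd)
    (fun he => hcon he.ge) hbr hspan
  refine h3 ?_
  have h4 : Algebra.adjoin ℚ (qM B Wt H : Set (Module.End ℚ A.H1)) ≤
      Algebra.adjoin ℚ ({X : Module.End ℚ A.H1 | X ∈ A.NA ∧
        ∀ Y ∈ A.NA, Y * X = X * Y} ∪ {X | X ∈ der A.NA ∧ ∃ M ∈ mats B (dq B Wt H),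
          Rel B X M}) := by
    refine Algebra.adjoin_le fun Q hQ => ?_
    obtain ⟨C, hC, d, hd, rfl, hcc⟩ := hq.dec hQ
    refine Subalgebra.add_mem _ (Algebra.subset_adjoin (Or.inl ⟨hq.le hC, fun Y hY => ?_⟩))
      (Algebra.subset_adjoin (Or.inr ⟨hdd hd, ?_⟩))
    · exact hq.comm C (fun X hX => (hcc X hX).symm) Y hY
    · obtain ⟨M, hM⟩ := h.st d (hq.le (hq.der_le hd))
      exact ⟨M, ⟨d, hd, hM⟩, hM⟩
  exact h4 (hq.adjoin hX)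

end Pool.Agent.H19PD
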