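import Pool.Agent.H19PD.Rig

set_option autoImplicit false
set_option linter.unusedSectionVars false
set_option linter.unusedVariables false

/-!
# The main theorem, in terms of matrices
-/

open Module Function TensorProduct Matrix

noncomputable section

namespace Pool.Agent.H19PD

open Pool.Agent.Y102 Pool.Agent.W516.DR Pool.Agent.H204R3.GP Pool.Agent.W516.KC
  Pool.Agent.H204R3.SP Pool.Agent.TH119.MX Pool.Agent.R917 Pool.Agent.R918 Pool.Agent.N208.AM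
  Pool.Agent.N113.BT Pool.Agent.H19HP

variable {g : ℕ} {A : AbVar g} {s n : ℕ} {r : Fin s → ℕ} {B : Fin n → Ten A r} {w : Fin s → ℤ}
  {P : Matrix (Fin n) (Fin n) ℂ} {Wt : Matrix (Fin n) (Fin n) ℚ}
  {H : Set (Matrix (Fin n) (Fin n) ℂ)}

/-- The condition on the pairs, in terms of matrices. -/
theorem alpha_gen {E : Matrix (Fin (2 * g)) (Fin (2 * g)) ℂ} {T : Submodule ℚ (Module.End ℚ A.H1)}
    {K : Submodule ℂ (Matrix (Fin n) (Fin n) ℂ)}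
    (hα : ∀ p ∈ Submodule.span ℂ {p : Matrix (Fin (2 * g)) (Fin (2 * g)) ℂ ×
      Matrix (Fin n) (Fin n) ℂ | ∃ X ∈ T, ∃ M, Rel B X M ∧ p = (toC X, cq M)},
      E * p.1 = 0 → p.2 ∈ K) :
    ∀ p ∈ pC B T, matE (2 * g) E * p.1 = 0 → p.2 ∈ K := by
  intro p hp h0
  have key : ∀ p ∈ pC B T, ∃ x, matE (2 * g) x = p.1 ∧ (x, p.2) ∈
      Submodule.span ℂ {p : Matrix (Fin (2 * g)) (Fin (2 * g)) ℂ × Matrix (Fin n) (Fin n) ℂ |
        ∃ X ∈ T, ∃ M, Rel B X M ∧ p = (toC X, cq M)} := by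
    intro p hp
    induction hp using Submodule.span_induction with
    | mem p hp =>
      obtain ⟨X, hX, M, hM, rfl⟩ := hp
      exact ⟨toC X, matE_toC X, Submodule.subset_span ⟨X, hX, M, hM, rfl⟩⟩
    | zero => exact ⟨0, map_zero _, Submodule.zero_mem _⟩
    | add p q _ _ hp hq =>
      obtain ⟨x, hx, hx'⟩ := hp
      obtain ⟨y, hy, hy'⟩ := hq
      exact ⟨x + y, by rw [map_add, hx, hy]; rfl, Submodule.add_mem _ hx' hy'⟩
    | smul c p _ hp =>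
      obtain ⟨x, hx, hx'⟩ := hp
      exact ⟨c • x, by rw [map_smul, hx]; rfl, Submodule.smul_mem _ c hx'⟩
  obtain ⟨x, hx, hx'⟩ := key p hp
  refine hα _ hx' ?_
  rw [← hx, ← map_mul] at h0
  exact (matE (2 * g)).injective (h0.trans (map_zero _).symm)

variable {F : Type} [CommRing F] [Algebra ℚ F] [Module.Finite ℚ F]

/-- **The derived algebra of the Lie algebra of the group** is everything. -/
theorem full_gen' {V : Submodule ℚ (Matrix (Fin n) (Fin n) ℚ)} (hV : V = mats B (der A.NA))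
    (h : Mot w B P) (hW : WRel w B Wt) (hH : PtM P H)
    (μ : F →+* Module.End ℚ V)
    (good : Set (F →+* ℂ)) (hgood : ∀ f : F, f ≠ 0 → ∃ σ ∈ good, σ f ≠ 0)
    (hrig : ∀ σ ∈ good, ∃ (d : ℕ) (S : Submodule ℂ (Matrix (Fin d) (Fin d) ℂ))
      (PW : Matrix (Fin (2 * g)) (Fin d) ℂ) (QW : Matrix (Fin d) (Fin (2 * g)) ℂ),
      RigidLie S ∧ QW * PW = 1 ∧ (∀ X ∈ A.NA, PW * QW * toC X = toC X * (PW * QW)) ∧
      (∀ X ∈ A.NA, ∃ c : ℂ, QW * toC X * PW + c • 1 ∈ S) ∧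
      (∀ z ∈ S, ∃ Y ∈ Submodule.span ℂ {Y | ∃ X ∈ A.NA, Y = toC X}, z = QW * Y * PW) ∧
      ∀ p ∈ Submodule.span ℂ {p : Matrix (Fin (2 * g)) (Fin (2 * g)) ℂ ×
        Matrix (Fin n) (Fin n) ℂ | ∃ X ∈ der A.NA, ∃ M, Rel B X M ∧ p = (toC X, cq M)},
        PW * QW * p.1 = 0 → p.2 ∈ KS μ σ)
    (hdet : ∀ E : Submodule ℚ (Matrix (Fin n) (Fin n) ℚ), E ≤ V →
      E ≠ V → (∀ x ∈ E, ∀ y ∈ E, x * y - y * x ∈ E) →
      (∀ x : V, x ∈ Submodule.span ℚ {z : V | ∃ f : F,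
        ∃ e : V, (e : Matrix (Fin n) (Fin n) ℚ) ∈ E ∧ z = μ f e}) →
      ∃ T : Module.End ℚ A.H1, (∀ X ∈ A.NA, (∀ Y ∈ A.NA, X * Y = Y * X) → T * X = X * T) ∧
        (∀ X ∈ der A.NA, ∀ M ∈ E, Rel B X M → T * X = X * T) ∧
        ∃ X ∈ A.NA, T * X ≠ X * T) :
    mats B (der A.NA) ≤ mats B (dq B Wt H) := by
  subst hV
  refine full_gen h hW hH μ good hgood (fun σ hσ => ?_) hdet
  obtain ⟨d, S, PW, QW, hS, h1, h2, h3, h4, h5⟩ := hrig σ hσ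
  refine ⟨matE (2 * g) (PW * QW), S.map (io PW QW), ?_, alpha_gen h5⟩
  refine rigPart_corner hS.rig hS.br h1 h2 h3 fun z hz => ?_
  obtain ⟨Y, hY, hz'⟩ := h4 z hz
  exact ⟨Y, Algebra.subset_adjoin hY, hz'⟩

end Pool.Agent.H19PD
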