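import Pool.Agent.N113.BT.Spin
import Pool.Agent.N113.BT.Mid
import Pool.Agent.H19HP.Mot
import Pool.Agent.H19PD.Alg

set_option autoImplicit false
set_option linter.unusedSectionVars false
set_option linter.unusedVariables false

/-!
# Motives with rigid parts at sufficiently many places
-/

open Module Function TensorProduct Matrix

noncomputable section

namespace Pool.Agent.H19PD

open Pool.Agent.Y102 Pool.Agent.W516.DR Pool.Agent.H204R3.GP Pool.Agent.W516.KC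
  Pool.Agent.H204R3.SP Pool.Agent.TH119.MX Pool.Agent.R917 Pool.Agent.N208.AM
  Pool.Agent.N113.BT Pool.Agent.H19HP

variable {g : ℕ} {A : AbVar g} {s n : ℕ} {r : Fin s → ℕ} {B : Fin n → Ten A r} {w : Fin s → ℤ}
  {P : Matrix (Fin n) (Fin n) ℂ} {Wt : Matrix (Fin n) (Fin n) ℚ}
  {H : Set (Matrix (Fin n) (Fin n) ℂ)} {N : Matrix (Fin n) (Fin n) ℝ}
  {e : Module.End ℂ (ℂ ⊗[ℚ] A.H1)} {S : Submodule ℂ (Module.End ℂ (ℂ ⊗[ℚ] A.H1))}

/-- The second components are in the span of the matrices. -/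
theorem pC_snd {T : Submodule ℚ (Module.End ℚ A.H1)}
    {p : Module.End ℂ (ℂ ⊗[ℚ] A.H1) × Matrix (Fin n) (Fin n) ℂ} (hp : p ∈ pC B T) :
    p.2 ∈ Submodule.span ℂ {y | ∃ M ∈ mats B T, y = cq M} := by
  induction hp using Submodule.span_induction with
  | mem p hp =>
    obtain ⟨X, hX, M, hM, rfl⟩ := hp
    exact Submodule.subset_span ⟨M, ⟨X, hX, hM⟩, rfl⟩
  | zero => exact Submodule.zero_mem _
  | add a b _ _ ha hb => exact Submodule.add_mem _ ha hb
  | smul c a _ ha => exact Submodule.smul_mem _ c ha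

theorem dq_le (h : Mot w B P) (hW : WRel w B Wt) (hH : PtM P H) : dq B Wt H ≤ der A.NA := by
  have hf := qM_full h hW hH
  unfold dq der
  exact Submodule.span_mono fun _ ⟨X, hX, Y, hY, e⟩ => ⟨X, hf.le hX, Y, hf.le hY, e⟩

/-- The image of the derived algebras at a place. -/
theorem local_of_rig (h : Mot w B P) (hW : WRel w B Wt) (hH : PtM P H) (hr : RigPart A e S)
    {K : Submodule ℂ (Matrix (Fin n) (Fin n) ℂ)}
    (hK : ∀ p ∈ pC B (der A.NA), e * p.1 = 0 → p.2 ∈ K) {M : Matrix (Fin n) (Fin n) ℚ}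
    (hM : M ∈ mats B (der A.NA)) :
    cq M ∈ Submodule.span ℂ {y | ∃ M' ∈ mats B (dq B Wt H), M' ∈ mats B (der A.NA) ∧
      y = cq M'} ⊔ K := by
  have hq := qM_full h hW hH
  have hdd := dq_le h hW hH
  obtain ⟨X, hX, hXM⟩ := hM
  obtain ⟨y, hy, h1⟩ := hr.der hq hX
  obtain ⟨y', hy'⟩ := exists_pC h (hdd.trans der_NA_le) hy
  have h2 : ((X.baseChange ℂ : Module.End ℂ (ℂ ⊗[ℚ] A.H1)), cq M) ∈ pC B (der A.NA) :=
    Submodule.subset_span ⟨X, hX, M, hXM, rfl⟩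
  have h3 := Submodule.sub_mem _ h2 (pC_mono hdd hy')
  have h4 : cq M = y' + (cq M - y') := by abel
  rw [h4]
  refine Submodule.add_mem_sup ?_ (hK _ h3 ?_)
  · refine (Submodule.span_mono ?_) (pC_snd hy')
    rintro _ ⟨M', hM', rfl⟩
    exact ⟨M', hM', mats_mono hdd hM', rfl⟩
  · change e * (X.baseChange ℂ - y) = 0
    rw [mul_sub, h1, sub_self]

variable {F : Type} [CommRing F] [Algebra ℚ F] [Module.Finite ℚ F]

/-- The kernel at a place. -/
def KS {V : Submodule ℚ (Matrix (Fin n) (Fin n) ℚ)} (μ : F →+* Module.End ℚ V) (σ : F →+* ℂ) :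
    Submodule ℂ (Matrix (Fin n) (Fin n) ℂ) :=
  Submodule.span ℂ {y | ∃ (f : F) (z : V), y =
        (μ f z : Matrix (Fin n) (Fin n) ℚ).map (fun q => (q : ℂ)) -
          σ f • (z : Matrix (Fin n) (Fin n) ℚ).map (fun q => (q : ℂ))}

/-- **The derived algebra of the Lie algebra of the group** is everything. -/
theorem full_gen (h : Mot w B P) (hW : WRel w B Wt) (hH : PtM P H)
    (μ : F →+* Module.End ℚ (mats B (der A.NA)))
    (good : Set (F →+* ℂ)) (hgood : ∀ f : F, f ≠ 0 → ∃ σ ∈ good, σ f ≠ 0)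
    (hrig : ∀ σ ∈ good, ∃ e S, RigPart A e S ∧
      ∀ p ∈ pC B (der A.NA), e * p.1 = 0 → p.2 ∈ KS μ σ)
    (hdet : ∀ E : Submodule ℚ (Matrix (Fin n) (Fin n) ℚ), E ≤ mats B (der A.NA) →
      E ≠ mats B (der A.NA) → (∀ x ∈ E, ∀ y ∈ E, x * y - y * x ∈ E) →
      (∀ x : mats B (der A.NA), x ∈ Submodule.span ℚ {z : mats B (der A.NA) | ∃ f : F,
        ∃ e : mats B (der A.NA), (e : Matrix (Fin n) (Fin n) ℚ) ∈ E ∧ z = μ f e}) →
      ∃ T : Module.End ℚ A.H1, (∀ X ∈ A.NA, (∀ Y ∈ A.NA, X * Y = Y * X) → T * X = X * T) ∧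
        (∀ X ∈ der A.NA, ∀ M ∈ E, Rel B X M → T * X = X * T) ∧
        ∃ X ∈ A.NA, T * X ≠ X * T) :
    mats B (der A.NA) ≤ mats B (dq B Wt H) := by
  have hq := qM_full h hW hH
  have hdd := dq_le h hW hH
  have hspan := span_of_local μ (mats B (dq B Wt H)) good hgood (by
    intro σ hσ x
    obtain ⟨e, S, hr, hK⟩ := hrig σ hσ
    exact local_of_rig h hW hH hr hK x.2)
  by_contra hcon
  have hbr : ∀ x ∈ mats B (dq B Wt H), ∀ y ∈ mats B (dq B Wt H),
      x * y - y * x ∈ mats B (dq B Wt H) := by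
    rintro x ⟨X, hX, hM⟩ y ⟨Y, hY, hM'⟩
    exact ⟨Y * X - X * Y, Submodule.subset_span ⟨Y, hq.der_le hY, X, hq.der_le hX, rfl⟩,
      hM'.br hM⟩
  obtain ⟨T, h1, h2, X, hX, h3⟩ := hdet (mats B (dq B Wt H)) (mats_mono hdd)
    (fun he => hcon he.ge) hbr hspan
  refine h3 (hq.comm T (fun Q hQ => ?_) X hX).symm
  obtain ⟨C, hC, d, hd, rfl, hcc⟩ := hq.dec hQ
  have e1 : T * C = C * T := by
    refine h1 C (hq.le hC) fun Y hY => ?_
    exact (hq.comm C (fun X hX => (hcc X hX).symm) Y hY).symm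
  have e2 : T * d = d * T := by
    obtain ⟨M, hM⟩ := h.st d (hq.le (hq.der_le hd))
    exact h2 d (hdd hd) M ⟨d, hd, hM⟩ hM
  rw [add_mul, mul_add, e1, e2]

end Pool.Agent.H19PD
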