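import Pool.Agent.H19PD.Mot

set_option autoImplicit false
set_option linter.unusedSectionVars false
set_option linter.unusedVariables false

/-!
# The rigid Lie algebras
-/

open Module Function TensorProduct Matrix

noncomputable section

namespace Pool.Agent.H19PD

open Pool.Agent.R918 Pool.Agent.N113.BT Pool.Agent.Y102 Pool.Agent.W516.DR Pool.Agent.H204R3.GP

/-- A Lie algebra which is rigid. -/
structure RigidLie {d : ℕ} (S : Submodule ℂ (Matrix (Fin d) (Fin d) ℂ)) : Prop where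
  br : ∀ x ∈ S, ∀ y ∈ S, x * y - y * x ∈ S
  rig : Rigid S

section Spin

variable {N k d : ℕ} {E : Fin N → Matrix (Fin d) (Fin d) ℂ} {c : Fin N → Fin k}

theorem rigid_spin (hsq : ∀ i, E i * E i = 1) (hanti : ∀ i j, i ≠ j → E i * E j = -(E j * E i))
    (hc : ∀ i, 6 ≤ (Finset.univ.filter fun j => c j = c i).card) :
    RigidLie (Submodule.span ℂ {Y | ∃ i j, i ≠ j ∧ c i = c j ∧ Y = E i * E j}) where
  br x hx y hy := soM_br hsq hanti hx hy
  rig := soM_rigid hsq hanti hc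

end Spin

section Ext

variable {K k m d : ℕ} {a b : Fin k → Fin (2 * m) → Matrix (Fin K) (Fin K) ℂ}
  {P : Matrix (Fin d) (Fin K) ℂ} {Q : Matrix (Fin K) (Fin d) ℂ}

theorem rigid_ext
    (haa : ∀ σ i τ j, a σ i * a τ j = -(a τ j * a σ i))
    (hbb : ∀ σ i τ j, b σ i * b τ j = -(b τ j * b σ i))
    (hab : ∀ σ i τ j, a σ i * b τ j + b τ j * a σ i = if σ = τ ∧ i = j then 1 else 0)
    (hPQ : P * Q = 1)
    (hQ : ∀ v, (∃ w, v = Q.mulVec w) ↔ ∀ σ, (quant a b σ 1).mulVec v = (m : ℂ) • v) :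
    RigidLie (Submodule.span ℂ {Y | ∃ σ x, Matrix.trace x = 0 ∧ Y = P * quant a b σ x * Q}) := by
  have h : MidPart (opl a) (opl b) (PP P) (QQ Q) := midPart_of (m := m) rfl haa hbb hab
    (by rw [hPQ, Matrix.one_mul]) (by rw [Matrix.mul_assoc, hPQ, Matrix.mul_one]) hQ
  set S : Submodule ℂ (Matrix (Fin d) (Fin d) ℂ) :=
    Submodule.span ℂ {Y | ∃ σ x, Matrix.trace x = 0 ∧ Y = P * quant a b σ x * Q} with hS
  have hmap : S.map (matE d).toLinearMap = slC (opl a) (opl b) (PP P) (QQ Q) := slC_eq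
  have hinj : Injective (matE d) := (matE d).injective
  have hmem : ∀ x, matE d x ∈ slC (opl a) (opl b) (PP P) (QQ Q) ↔ x ∈ S := by
    intro x
    rw [← hmap]
    constructor
    · rintro ⟨y, hy, hxy⟩
      rw [← hinj hxy]
      exact hy
    · intro hx
      exact ⟨x, hx, rfl⟩
  have hone : (PP P ∘ₗ QQ Q : Module.End ℂ (ℂ ⊗[ℚ] (Fin d → ℚ))) = 1 := by
    rw [PQ_eq, hPQ, map_one]
  refine ⟨fun x hx y hy => ?_, fun 𝔥 h𝔥 hbr hgen => ?_⟩
  · rw [← hmem, map_sub, map_mul, map_mul]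
    exact h.sbr _ ((hmem x).2 hx) _ ((hmem y).2 hy)
  · have hadj : ∀ x ∈ Algebra.adjoin ℂ (𝔥 : Set (Matrix (Fin d) (Fin d) ℂ)), matE d x ∈
        Algebra.adjoin ℂ (𝔥.map (matE d).toLinearMap :
          Set (Module.End ℂ (ℂ ⊗[ℚ] (Fin d → ℚ)))) := by
      intro x hx
      induction hx using Algebra.adjoin_induction with
      | mem x hx => exact Algebra.subset_adjoin ⟨x, hx, rfl⟩
      | algebraMap r =>
        rw [AlgEquiv.commutes]
        exact Subalgebra.algebraMap_mem _ r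
      | add x y _ _ hx hy => rw [map_add]; exact Subalgebra.add_mem _ hx hy
      | mul x y _ _ hx hy => rw [map_mul]; exact Subalgebra.mul_mem _ hx hy
    have key := h.rig (m := m) rfl (L := 𝔥.map (matE d).toLinearMap) ?_ ?_ ?_
    · intro x hx
      obtain ⟨y, hy, hxy⟩ := key ((hmem x).2 hx)
      rw [← hinj hxy]
      exact hy
    · rintro _ ⟨x, hx, rfl⟩
      exact (hmem x).2 (h𝔥 hx)
    · rintro _ ⟨x, hx, rfl⟩ _ ⟨y, hy, rfl⟩
      refine ⟨x * y - y * x, hbr x hx y hy, ?_⟩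
      change matE d (x * y - y * x) = matE d x * matE d y - matE d y * matE d x
      rw [map_sub, map_mul, map_mul]
    · intro z hz
      rw [← hmap] at hz
      obtain ⟨x, hx, rfl⟩ := hz
      exact ⟨matE d x, hadj x (hgen x hx), by rw [hone, one_mul]; rfl⟩

end Ext

end Pool.Agent.H19PD
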