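import Pool.Agent.H19PD.Fin

set_option autoImplicit false
set_option linter.unusedSectionVars false
set_option linter.unusedVariables false

/-!
# Places of type `A_1`
-/

open Module Function TensorProduct Matrix

noncomputable section

namespace Pool.Agent.H19PD

section Alg

variable {n : ℕ} {L K : Submodule ℂ (Matrix (Fin n) (Fin n) ℂ)}

/-- A perfect Lie algebra which is spanned by two elements modulo an ideal is in the ideal. -/
theorem perfect_two (hbr : ∀ x ∈ L, ∀ y ∈ L, x * y - y * x ∈ L)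
    (hperf : L ≤ Submodule.span ℂ {z | ∃ x ∈ L, ∃ y ∈ L, z = x * y - y * x})
    (hK : ∀ x ∈ L, ∀ k ∈ L, k ∈ K → x * k - k * x ∈ K) {p q : Matrix (Fin n) (Fin n) ℂ}
    (hp : p ∈ L) (hq : q ∈ L) (hle : L ≤ Submodule.span ℂ {p, q} ⊔ K) : L ≤ K := by
  have hK' : ∀ k ∈ L, k ∈ K → ∀ x ∈ L, k * x - x * k ∈ K := by
    intro k hk hkK x hx
    have h1 := hK x hx k hk hkK
    have h2 : k * x - x * k = -(x * k - k * x) := by abel
    rw [h2]
    exact K.neg_mem h1
  -- the bracket of two elements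
  have hdec : ∀ (p q : Matrix (Fin n) (Fin n) ℂ), p ∈ L → q ∈ L →
      L ≤ Submodule.span ℂ {p, q} ⊔ K → ∀ x ∈ L, ∀ y ∈ L, ∃ c : ℂ,
        x * y - y * x - c • (p * q - q * p) ∈ K := by
    intro p q hp hq hle x hx y hy
    obtain ⟨u, hu, k, hk, hx'⟩ := Submodule.mem_sup.1 (hle hx)
    obtain ⟨u', hu', k', hk', hy'⟩ := Submodule.mem_sup.1 (hle hy)
    obtain ⟨a, b, rfl⟩ := Submodule.mem_span_pair.1 hu
    obtain ⟨a', b', rfl⟩ := Submodule.mem_span_pair.1 hu'
    have hkL : k ∈ L := by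
      have h1 : k = x - (a • p + b • q) := by rw [← hx']; abel
      rw [h1]
      exact L.sub_mem hx (L.add_mem (L.smul_mem _ hp) (L.smul_mem _ hq))
    have hkL' : k' ∈ L := by
      have h1 : k' = y - (a' • p + b' • q) := by rw [← hy']; abel
      rw [h1]
      exact L.sub_mem hy (L.add_mem (L.smul_mem _ hp) (L.smul_mem _ hq))
    have hpq : a • p + b • q ∈ L := L.add_mem (L.smul_mem _ hp) (L.smul_mem _ hq)
    refine ⟨a * b' - b * a', ?_⟩
    have h1 : x * y - y * x - (a * b' - b * a') • (p * q - q * p) =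
        ((a • p + b • q) * k' - k' * (a • p + b • q)) + (k * y - y * k) := by
      rw [← hx', ← hy']
      simp only [add_mul, mul_add, smul_mul_assoc, mul_smul_comm, smul_add, smul_sub, sub_smul,
        smul_smul]
      module
    rw [h1]
    exact K.add_mem (hK _ hpq _ hkL' hk') (hK' _ hkL hk _ hy)
  have h1 : L ≤ Submodule.span ℂ {p * q - q * p, 0} ⊔ K := by
    refine hperf.trans (Submodule.span_le.2 ?_)
    rintro _ ⟨x, hx, y, hy, rfl⟩
    obtain ⟨c, hc⟩ := hdec p q hp hq hle x hx y hy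
    have h2 : x * y - y * x = c • (p * q - q * p) + (x * y - y * x - c • (p * q - q * p)) := by
      abel
    change x * y - y * x ∈ Submodule.span ℂ {p * q - q * p, 0} ⊔ K
    rw [h2]
    refine Submodule.add_mem_sup (Submodule.smul_mem _ _ (Submodule.subset_span (Or.inl rfl))) hc
  refine hperf.trans (Submodule.span_le.2 ?_)
  rintro _ ⟨x, hx, y, hy, rfl⟩
  obtain ⟨c, hc⟩ := hdec _ 0 (hbr p hp q hq) L.zero_mem h1 x hx y hy
  rw [mul_zero, zero_mul, sub_zero, smul_zero, sub_zero] at hc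
  exact hc

/-- A space of dimension at most two is spanned by two elements. -/
theorem exists_pair {U : Type} [AddCommGroup U] [Module ℂ U] [FiniteDimensional ℂ U]
    (S : Submodule ℂ U) (hS : finrank ℂ S ≤ 2) : ∃ p ∈ S, ∃ q ∈ S, S ≤ Submodule.span ℂ {p, q} := by
  have h1 : finrank ℂ S = 0 ∨ finrank ℂ S = 1 ∨ finrank ℂ S = 2 := by omega
  rcases h1 with h | h | h
  · refine ⟨0, S.zero_mem, 0, S.zero_mem, ?_⟩
    rw [Submodule.finrank_eq_zero.1 h]
    exact bot_le
  · let b := finBasisOfFinrankEq ℂ S h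
    refine ⟨b 0, (b 0).2, 0, S.zero_mem, fun x hx => ?_⟩
    have h2 := b.sum_repr ⟨x, hx⟩
    rw [Fin.sum_univ_one] at h2
    rw [Submodule.mem_span_pair]
    exact ⟨b.repr ⟨x, hx⟩ 0, 0, by rw [smul_zero, add_zero]; exact congrArg Subtype.val h2⟩
  · let b := finBasisOfFinrankEq ℂ S h
    refine ⟨b 0, (b 0).2, b 1, (b 1).2, fun x hx => ?_⟩
    have h2 := b.sum_repr ⟨x, hx⟩
    rw [Fin.sum_univ_two] at h2
    rw [Submodule.mem_span_pair]
    exact ⟨b.repr ⟨x, hx⟩ 0, b.repr ⟨x, hx⟩ 1, congrArg Subtype.val h2⟩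

/-- A perfect subalgebra of a Lie algebra of dimension at most three modulo an ideal is everything
or zero modulo the ideal. -/
theorem perfect_three {V : Submodule ℂ (Matrix (Fin n) (Fin n) ℂ)} (hLV : L ≤ V)
    (hbr : ∀ x ∈ L, ∀ y ∈ L, x * y - y * x ∈ L)
    (hperf : L ≤ Submodule.span ℂ {z | ∃ x ∈ L, ∃ y ∈ L, z = x * y - y * x})
    (hK : ∀ x ∈ L, ∀ k ∈ L, k ∈ K → x * k - k * x ∈ K) {a b c : Matrix (Fin n) (Fin n) ℂ}
    (hV : V ≤ Submodule.span ℂ {a, b, c} ⊔ K) : V ≤ L ⊔ K ∨ L ≤ K := by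
  have hle : L.map K.mkQ ≤ V.map K.mkQ := Submodule.map_mono hLV
  have h3 : finrank ℂ (V.map K.mkQ) ≤ 3 := by
    have h1 : V.map K.mkQ ≤ Submodule.span ℂ (Set.range ![K.mkQ a, K.mkQ b, K.mkQ c]) := by
      refine (Submodule.map_mono hV).trans ?_
      rw [Submodule.map_sup, Submodule.map_span, Submodule.mkQ_map_self, sup_bot_eq]
      refine Submodule.span_mono ?_
      rintro _ ⟨x, hx, rfl⟩
      rcases hx with rfl | rfl | rfl
      · exact ⟨0, rfl⟩
      · exact ⟨1, rfl⟩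
      · exact ⟨2, rfl⟩
    have h2 := finrank_range_le_card (R := ℂ) ![K.mkQ a, K.mkQ b, K.mkQ c]
    exact (Submodule.finrank_mono h1).trans h2
  rcases eq_or_lt_of_le (Submodule.finrank_mono hle) with h | h
  · left
    have h4 := Submodule.eq_of_le_of_finrank_eq hle h
    have h5 : V ≤ (L.map K.mkQ).comap K.mkQ := by
      rw [h4]
      exact Submodule.le_comap_map _ _
    rwa [Submodule.comap_map_eq, Submodule.ker_mkQ] at h5
  · right
    obtain ⟨p, hp, q, hq, hpq⟩ := exists_pair (L.map K.mkQ) (by omega)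
    obtain ⟨p', hp', rfl⟩ := hp
    obtain ⟨q', hq', rfl⟩ := hq
    refine perfect_two hbr hperf hK hp' hq' fun x hx => ?_
    have h5 : K.mkQ x ∈ Submodule.span ℂ {K.mkQ p', K.mkQ q'} := hpq ⟨x, hx, rfl⟩
    obtain ⟨α, β, h6⟩ := Submodule.mem_span_pair.1 h5
    have h7 : x - (α • p' + β • q') ∈ K := by
      rw [← Submodule.Quotient.mk_eq_zero]
      change K.mkQ (x - (α • p' + β • q')) = 0
      rw [map_sub, map_add, map_smul, map_smul, h6, sub_self]
    have h8 : x = (α • p' + β • q') + (x - (α • p' + β • q')) := by abel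
    rw [h8]
    exact Submodule.add_mem_sup (Submodule.mem_span_pair.2 ⟨α, β, rfl⟩) h7

end Alg

open Pool.Agent.Y102 Pool.Agent.W516.DR Pool.Agent.H204R3.GP Pool.Agent.W516.KC
  Pool.Agent.H204R3.SP Pool.Agent.TH119.MX Pool.Agent.R917 Pool.Agent.R918 Pool.Agent.N208.AM
  Pool.Agent.N113.BT Pool.Agent.H19HP

variable {g : ℕ} {A : AbVar g} {s n : ℕ} {r : Fin s → ℕ} {B : Fin n → Ten A r} {w : Fin s → ℤ}
  {P : Matrix (Fin n) (Fin n) ℂ} {Wt : Matrix (Fin n) (Fin n) ℚ}
  {H : Set (Matrix (Fin n) (Fin n) ℂ)}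

/-- The derived algebra of the Lie algebra of the group is perfect. -/
theorem mats_perfect (h : Mot w B P) (hW : WRel w B Wt) (hH : PtM P H) :
    mats B (dq B Wt H) ≤ Submodule.span ℚ {z | ∃ x ∈ mats B (dq B Wt H),
      ∃ y ∈ mats B (dq B Wt H), z = x * y - y * x} := by
  have hf := qM_full h hW hH
  have hdN : dq B Wt H ≤ A.NA := (dq_le h hW hH).trans der_NA_le
  rintro M ⟨Z, hZ, hM⟩
  have h1 := hf.perfect hZ
  have hder : ∀ c ∈ Submodule.span ℚ {Z | ∃ X ∈ dq B Wt H, ∃ Y ∈ dq B Wt H,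
      Z = X * Y - Y * X}, c ∈ A.NA := by
    intro c hc
    refine (Submodule.span_le.2 ?_) hc
    rintro _ ⟨X, hX, Y, hY, rfl⟩
    exact A.NA_bracket (hdN hX) (hdN hY)
  clear hZ
  induction h1 using Submodule.span_induction generalizing M with
  | mem Z hZ =>
    obtain ⟨X, hX, Y, hY, rfl⟩ := hZ
    obtain ⟨M1, hM1⟩ := h.st X (hdN hX)
    obtain ⟨M2, hM2⟩ := h.st Y (hdN hY)
    refine Submodule.subset_span ⟨M2, ⟨Y, hY, hM2⟩, M1, ⟨X, hX, hM1⟩, ?_⟩
    rw [hM.uniq h.li (hM1.br hM2)]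
  | zero =>
    rw [hM.uniq h.li Rel.zero]
    exact Submodule.zero_mem _
  | add a b ha' hb' ha hb =>
    obtain ⟨M1, hM1⟩ := h.st a (hder a ha')
    obtain ⟨M2, hM2⟩ := h.st b (hder b hb')
    rw [hM.uniq h.li (hM1.add hM2)]
    exact Submodule.add_mem _ (ha hM1) (hb hM2)
  | smul c a ha' ha =>
    obtain ⟨M1, hM1⟩ := h.st a (hder a ha')
    rw [hM.uniq h.li (hM1.smul c)]
    exact Submodule.smul_mem _ _ (ha hM1)

variable {F : Type} [CommRing F]

theorem mats_br (h : Mot w B P) {x y : Matrix (Fin n) (Fin n) ℚ}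
    (hx : x ∈ mats B (der A.NA)) (hy : y ∈ mats B (der A.NA)) :
    x * y - y * x ∈ mats B (der A.NA) := by
  obtain ⟨X, hX, hM⟩ := hx
  obtain ⟨Y, hY, hM'⟩ := hy
  exact ⟨Y * X - X * Y, Submodule.subset_span ⟨Y, der_NA_le hY, X, der_NA_le hX, rfl⟩,
    hM'.br hM⟩

/-- The action is linear over the Lie bracket. -/
def LieLin (μ : F →+* Module.End ℚ (mats B (der A.NA))) : Prop :=
  ∀ (f : F) (x y z : mats B (der A.NA)), (z : Matrix (Fin n) (Fin n) ℚ) =
      (x : Matrix (Fin n) (Fin n) ℚ) * y - (y : Matrix (Fin n) (Fin n) ℚ) * x →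
    (μ f z : Matrix (Fin n) (Fin n) ℚ) = (μ f x : Matrix (Fin n) (Fin n) ℚ) * y -
      (y : Matrix (Fin n) (Fin n) ℚ) * (μ f x : Matrix (Fin n) (Fin n) ℚ)

/-- The kernel at a place is an ideal. -/
theorem KS_ideal (h : Mot w B P) {μ : F →+* Module.End ℚ (mats B (der A.NA))} (hμ : LieLin μ)
    {σ : F →+* ℂ} {x : Matrix (Fin n) (Fin n) ℚ} (hx : x ∈ mats B (der A.NA))
    {k : Matrix (Fin n) (Fin n) ℂ} (hk : k ∈ KS μ σ) : cq x * k - k * cq x ∈ KS μ σ := by
  induction hk using Submodule.span_induction with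
  | mem k hk =>
    obtain ⟨f, z, rfl⟩ := hk
    have h1 : (z : Matrix (Fin n) (Fin n) ℚ) * x - x * (z : Matrix (Fin n) (Fin n) ℚ) ∈
      mats B (der A.NA) := mats_br h z.2 hx
    have h2 := hμ f z ⟨x, hx⟩ ⟨_, h1⟩ rfl
    have h3 : cq x * (cq (μ f z : Matrix (Fin n) (Fin n) ℚ) - σ f • cq z) -
        (cq (μ f z : Matrix (Fin n) (Fin n) ℚ) - σ f • cq z) * cq x =
        -(cq (μ f ⟨_, h1⟩ : Matrix (Fin n) (Fin n) ℚ) -
          σ f • cq ((z : Matrix (Fin n) (Fin n) ℚ) * x - x * (z : Matrix (Fin n) (Fin n) ℚ))) := by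
      rw [h2, cq_sub, cq_sub, cq_mul, cq_mul, cq_mul, cq_mul]
      simp only [mul_sub, sub_mul, mul_smul_comm, smul_mul_assoc, smul_sub]
      abel
    change cq x * (cq (μ f z : Matrix (Fin n) (Fin n) ℚ) - σ f • cq z) -
        (cq (μ f z : Matrix (Fin n) (Fin n) ℚ) - σ f • cq z) * cq x ∈ _
    rw [h3]
    exact Submodule.neg_mem _ (Submodule.subset_span ⟨f, ⟨_, h1⟩, rfl⟩)
  | zero => rw [mul_zero, zero_mul, sub_zero]; exact Submodule.zero_mem _
  | add a b _ _ ha hb =>
    have h1 := Submodule.add_mem _ ha hb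
    convert h1 using 1
    rw [mul_add, add_mul]
    abel
  | smul c a _ ha =>
    have h1 := Submodule.smul_mem _ c ha
    convert h1 using 1
    rw [mul_smul_comm, smul_mul_assoc, smul_sub]

/-- **Places at which the Lie algebra has dimension at most three**: the derived algebra of the Lie
algebra of the group is everything. -/
theorem local_of_small (h : Mot w B P) (hW : WRel w B Wt) (hH : PtM P H)
    {μ : F →+* Module.End ℚ (mats B (der A.NA))} (hμ : LieLin μ) {σ : F →+* ℂ}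
    {a b c : Matrix (Fin n) (Fin n) ℂ}
    (habc : ∀ M ∈ mats B (der A.NA), cq M ∈ Submodule.span ℂ {a, b, c} ⊔ KS μ σ)
    {M : Matrix (Fin n) (Fin n) ℚ} (hM : M ∈ mats B (der A.NA)) :
    cq M ∈ Submodule.span ℂ {y | ∃ M' ∈ mats B (dq B Wt H), M' ∈ mats B (der A.NA) ∧
      y = cq M'} ⊔ KS μ σ := by
  have hf := qM_full h hW hH
  have hdd := dq_le h hW hH
  set L : Submodule ℂ (Matrix (Fin n) (Fin n) ℂ) :=
    Submodule.span ℂ {y | ∃ M' ∈ mats B (dq B Wt H), M' ∈ mats B (der A.NA) ∧ y = cq M'} with hL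
  let V : Submodule ℂ (Matrix (Fin n) (Fin n) ℂ) :=
    Submodule.span ℂ {y | ∃ M' ∈ mats B (der A.NA), y = cq M'}
  have hbr0 : ∀ x ∈ mats B (dq B Wt H), ∀ y ∈ mats B (dq B Wt H),
      x * y - y * x ∈ mats B (dq B Wt H) := by
    rintro x ⟨X, hX, hM⟩ y ⟨Y, hY, hM'⟩
    exact ⟨Y * X - X * Y, Submodule.subset_span ⟨Y, hf.der_le hY, X, hf.der_le hX, rfl⟩,
      hM'.br hM⟩
  have hmono : mats B (dq B Wt H) ≤ mats B (der A.NA) := mats_mono hdd
  have hmemL : ∀ x ∈ mats B (dq B Wt H), cq x ∈ L := fun x hx =>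
    Submodule.subset_span ⟨x, hx, hmono hx, rfl⟩
  have hbr : ∀ x ∈ L, ∀ y ∈ L, x * y - y * x ∈ L := by
    intro x hx y hy
    induction hx using Submodule.span_induction with
    | mem x hx =>
      obtain ⟨x, hx, -, rfl⟩ := hx
      induction hy using Submodule.span_induction with
      | mem y hy =>
        obtain ⟨y, hy, -, rfl⟩ := hy
        rw [← cq_mul, ← cq_mul, ← cq_sub]
        exact hmemL _ (hbr0 x hx y hy)
      | zero => rw [mul_zero, zero_mul, sub_zero]; exact Submodule.zero_mem _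
      | add a b _ _ ha hb =>
        have h1 := Submodule.add_mem _ ha hb
        convert h1 using 1
        rw [mul_add, add_mul]
        abel
      | smul c a _ ha =>
        have h1 := Submodule.smul_mem _ c ha
        convert h1 using 1
        rw [mul_smul_comm, smul_mul_assoc, smul_sub]
    | zero => rw [mul_zero, zero_mul, sub_zero]; exact Submodule.zero_mem _
    | add a b _ _ ha hb =>
      have h1 := Submodule.add_mem _ ha hb
      convert h1 using 1
      rw [mul_add, add_mul]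
      abel
    | smul c a _ ha =>
      have h1 := Submodule.smul_mem _ c ha
      convert h1 using 1
      rw [mul_smul_comm, smul_mul_assoc, smul_sub]
  have hperf : L ≤ Submodule.span ℂ {z | ∃ x ∈ L, ∃ y ∈ L, z = x * y - y * x} := by
    refine Submodule.span_le.2 ?_
    rintro _ ⟨x, hx, -, rfl⟩
    have h1 := mats_perfect h hW hH hx
    clear hx
    change cq x ∈ Submodule.span ℂ {z | ∃ x ∈ L, ∃ y ∈ L, z = x * y - y * x}
    induction h1 using Submodule.span_induction with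
    | mem x hx =>
      obtain ⟨x, hx, y, hy, rfl⟩ := hx
      rw [cq_sub, cq_mul, cq_mul]
      exact Submodule.subset_span ⟨_, hmemL x hx, _, hmemL y hy, rfl⟩
    | zero =>
      have h1 : cq (0 : Matrix (Fin n) (Fin n) ℚ) = 0 := by ext i j; simp
      rw [h1]
      exact Submodule.zero_mem _
    | add x y _ _ hx hy =>
      have h1 : cq (x + y) = cq x + cq y := by ext i j; simp
      rw [h1]
      exact Submodule.add_mem _ hx hy
    | smul c x _ hx =>
      have h1 : cq (c • x) = (c : ℂ) • cq x := by ext i j; simp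
      rw [h1]
      exact Submodule.smul_mem _ _ hx
  have hK : ∀ x ∈ L, ∀ k ∈ L, k ∈ KS μ σ → x * k - k * x ∈ KS μ σ := by
    intro x hx k _ hk
    induction hx using Submodule.span_induction with
    | mem x hx =>
      obtain ⟨x, -, hx, rfl⟩ := hx
      exact KS_ideal h hμ hx hk
    | zero => rw [mul_zero, zero_mul, sub_zero]; exact Submodule.zero_mem _
    | add a b _ _ ha hb =>
      have h1 := Submodule.add_mem _ ha hb
      convert h1 using 1
      rw [mul_add, add_mul]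
      abel
    | smul c a _ ha =>
      have h1 := Submodule.smul_mem _ c ha
      convert h1 using 1
      rw [mul_smul_comm, smul_mul_assoc, smul_sub]
  have hLV : L ≤ V := Submodule.span_mono (by
    rintro _ ⟨x, -, hx, rfl⟩
    exact ⟨x, hx, rfl⟩)
  have hV : V ≤ Submodule.span ℂ {a, b, c} ⊔ KS μ σ := by
    refine Submodule.span_le.2 ?_
    rintro _ ⟨x, hx, rfl⟩
    exact habc x hx
  have hMV : cq M ∈ V := Submodule.subset_span ⟨M, hM, rfl⟩
  rcases perfect_three hLV hbr hperf hK hV with h1 | h1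
  · exact h1 hMV
  · refine Submodule.mem_sup_right ?_
    let 𝔫 : Submodule ℚ (Module.End ℚ A.H1) :=
      { carrier := {X | X ∈ der A.NA ∧ ∀ M, Rel B X M → cq M ∈ KS μ σ}
        zero_mem' := ⟨Submodule.zero_mem _, fun M hM => by
          rw [hM.uniq h.li Rel.zero]
          have h1 : cq (0 : Matrix (Fin n) (Fin n) ℚ) = 0 := by ext i j; simp
          rw [h1]
          exact Submodule.zero_mem _⟩
        add_mem' := by
          rintro X Y ⟨hX, h1⟩ ⟨hY, h2⟩
          refine ⟨Submodule.add_mem _ hX hY, fun M hM => ?_⟩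
          obtain ⟨M1, hM1⟩ := h.st X (der_NA_le hX)
          obtain ⟨M2, hM2⟩ := h.st Y (der_NA_le hY)
          have h3 : cq (M1 + M2) = cq M1 + cq M2 := by ext i j; simp
          rw [hM.uniq h.li (hM1.add hM2), h3]
          exact Submodule.add_mem _ (h1 M1 hM1) (h2 M2 hM2)
        smul_mem' := by
          rintro c X ⟨hX, h1⟩
          refine ⟨Submodule.smul_mem _ c hX, fun M hM => ?_⟩
          obtain ⟨M1, hM1⟩ := h.st X (der_NA_le hX)
          have h3 : cq (c • M1) = (c : ℂ) • cq M1 := by ext i j; simp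
          rw [hM.uniq h.li (hM1.smul c), h3]
          exact Submodule.smul_mem _ _ (h1 M1 hM1) }
    have h2 : ∀ X ∈ A.NA, ∀ Y ∈ A.NA, X * Y - Y * X ∈ 𝔫 := fun X hX Y hY => by
      refine der_le_of_ideal hf (𝔫 := 𝔫) ?_ (fun X hX => der_NA_le hX.1) ?_ hX hY
      · rintro X hX Y ⟨hY, hYt⟩
        obtain ⟨C, hC, d, hd, rfl, hcomm⟩ := full_NA.dec hX
        have e1 : (C + d) * Y - Y * (C + d) = d * Y - Y * d := by
          rw [add_mul, mul_add, hcomm Y (der_NA_le hY)]
          abel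
        rw [e1]
        refine ⟨Submodule.subset_span ⟨d, der_NA_le hd, Y, der_NA_le hY, rfl⟩, fun M hM => ?_⟩
        obtain ⟨M1, hM1⟩ := h.st d (der_NA_le hd)
        obtain ⟨M2, hM2⟩ := h.st Y (der_NA_le hY)
        rw [hM.uniq h.li (hM1.br hM2), cq_sub, cq_mul, cq_mul]
        have h5 := KS_ideal h hμ (σ := σ) ⟨d, hd, hM1⟩ (hYt M2 hM2)
        have h6 : cq M2 * cq M1 - cq M1 * cq M2 = -(cq M1 * cq M2 - cq M2 * cq M1) := by abel
        rw [h6]
        exact Submodule.neg_mem _ h5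
      · intro X hX Y hY
        have h3 : X * Y - Y * X ∈ dq B Wt H := Submodule.subset_span ⟨X, hX, Y, hY, rfl⟩
        refine ⟨hdd h3, fun M hM => h1 (hmemL M ⟨_, h3, hM⟩)⟩
    obtain ⟨X, hX, hXM⟩ := hM
    have h3 : der A.NA ≤ 𝔫 := by
      unfold der
      rw [Submodule.span_le]
      rintro _ ⟨X, hX, Y, hY, rfl⟩
      exact h2 X hX Y hY
    exact (h3 hX).2 M hXM

end Pool.Agent.H19PD
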